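import Pool.Agent.H.MP_a7cd38_co.AT.BMain

/-!
# The number of autotopisms of an atomic latin square of order not a prime power
-/

namespace Pool.Agent.Results.MP_a7cd38_co.AutotopismBound

open Pool.MP_a7cd38_co.AT

/-- Let `n ≥ 2` not be a prime power and let `L` be an atomic latin square of order `n` (the entry
in row `r` and column `c` is `L r c`).  Then there is an `m` with `m * m < n` such that `L` has at
most `n * m` autotopisms, so fewer than `n ^ (3 / 2)`. -/
theorem result (n : ℕ) (hn : 2 ≤ n) (hpp : ¬ IsPrimePow n) (L : Fin n → Equiv.Perm (Fin n))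
    (hlat : ∀ c : Fin n, Function.Injective (fun r : Fin n => L r c))
    (hrow : ∀ i j : Fin n, i ≠ j →
      ((L j)⁻¹ * L i).IsCycle ∧ ((L j)⁻¹ * L i).support.card = n)
    (hcol : ∀ c d : Fin n, c ≠ d → ∃ π : Equiv.Perm (Fin n),
      (∀ r : Fin n, L (π r) d = L r c) ∧ π.IsCycle ∧ π.support.card = n)
    (hsym : ∀ s t : Fin n, s ≠ t → ∃ π : Equiv.Perm (Fin n),
      (∀ r : Fin n, L (π r) ((L r).symm s) = t) ∧ π.IsCycle ∧ π.support.card = n) :
    ∃ m : ℕ, m * m < n ∧ Nat.card (Atp L) ≤ n * m :=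
  atomic_bound hn hpp L hlat hrow hcol hsym

end Pool.Agent.Results.MP_a7cd38_co.AutotopismBound
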