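import Pool.Agent.H.MP_a7cd38_co.AT.CycM

/-!
# Cycle structures of the autotopisms of atomic latin squares
-/

namespace Pool.Agent.Results.MP_a7cd38_co.AutotopismCycles

open Pool.MP_a7cd38_co.AT

/-- Let `L` be an atomic latin square of order `n ≥ 2` (the entry in row `r` and column `c` is
`L r c`) and `t` an autotopism of order `m > 1`.  Then
* `m ∣ n - 1`, and `t` fixes exactly one row, one column and one symbol and has all its other
  cycles of length `m`, or
* `m ∣ n`, and all the cycles of `t` on the rows, the columns and the symbols have length `m`, or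
* `m` is a prime dividing `n`, `m * m ≤ n` or `m = n`, and `t` fixes exactly `m` lines of one of
  the three kinds and no line of the other two kinds, and has all its other cycles of
  length `m`. -/
theorem result (n : ℕ) (hn : 2 ≤ n) (L : Fin n → Equiv.Perm (Fin n))
    (hlat : ∀ c : Fin n, Function.Injective (fun r : Fin n => L r c))
    (hrow : ∀ i j : Fin n, i ≠ j →
      ((L j)⁻¹ * L i).IsCycle ∧ ((L j)⁻¹ * L i).support.card = n)
    (hcol : ∀ c d : Fin n, c ≠ d → ∃ π : Equiv.Perm (Fin n),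
      (∀ r : Fin n, L (π r) d = L r c) ∧ π.IsCycle ∧ π.support.card = n)
    (hsym : ∀ s t : Fin n, s ≠ t → ∃ π : Equiv.Perm (Fin n),
      (∀ r : Fin n, L (π r) ((L r).symm s) = t) ∧ π.IsCycle ∧ π.support.card = n)
    (t : Equiv.Perm (Fin n) × Equiv.Perm (Fin n) × Equiv.Perm (Fin n)) (ht : t ∈ Atp L)
    (h1 : t ≠ 1) (m : ℕ) (hm : m = orderOf t) :
    (m ∣ n - 1 ∧ Shape t.1 1 m ∧ Shape t.2.1 1 m ∧ Shape t.2.2 1 m) ∨
    (m ∣ n ∧ Shape t.1 0 m ∧ Shape t.2.1 0 m ∧ Shape t.2.2 0 m) ∨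
    (m.Prime ∧ m ∣ n ∧ (m * m ≤ n ∨ m = n) ∧
      ((Shape t.1 m m ∧ Shape t.2.1 0 m ∧ Shape t.2.2 0 m) ∨
       (Shape t.1 0 m ∧ Shape t.2.1 m m ∧ Shape t.2.2 0 m) ∨
       (Shape t.1 0 m ∧ Shape t.2.1 0 m ∧ Shape t.2.2 m m))) :=
  atomic_shape hn L hlat hrow hcol hsym t ht h1 m hm

end Pool.Agent.Results.MP_a7cd38_co.AutotopismCycles
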