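import Pool.Agent.H.MP_a7cd38_co.AT.Main

/-!
# Autotopisms of row-Hamiltonian and atomic latin squares
-/

namespace Pool.Agent.Results.MP_a7cd38_co.AutotopismGap

open Pool.MP_a7cd38_co.AT

/-- Let `L` be a row-Hamiltonian latin square of order `n ≥ 2` (the entry in row `r` and column
`c` is `L r c`) that is not isotopic to the addition table of the integers modulo a prime `n`.
Then the stabilizer of a row in the group of autotopisms has an admissible order, at most
`n - 1`; the number of autotopisms is at most `n * (n - 1)`, and at most `n * (n - 1) / 2` if `n`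
is not a prime power.  If the square is also column-Hamiltonian (symbol-Hamiltonian), the
stabilizers of the columns (of the symbols) have admissible orders, too. -/
theorem result (n : ℕ) (hn : 2 ≤ n) (L : Fin n → Equiv.Perm (Fin n))
    (hlat : ∀ c : Fin n, Function.Injective (fun r : Fin n => L r c))
    (hrow : ∀ i j : Fin n, i ≠ j →
      ((L j)⁻¹ * L i).IsCycle ∧ ((L j)⁻¹ * L i).support.card = n)
    (hcyc : ¬ IsCyc L) :
    (∀ r : Fin n, Adm n (Nat.card
      {t : Equiv.Perm (Fin n) × Equiv.Perm (Fin n) × Equiv.Perm (Fin n) //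
        t ∈ Atp L ∧ t.1 r = r})) ∧
    Nat.card (Atp L) ≤ n * (n - 1) ∧
    (¬ IsPrimePow n → 2 * Nat.card (Atp L) ≤ n * (n - 1)) ∧
    ((∀ c d : Fin n, c ≠ d → ∃ π : Equiv.Perm (Fin n),
        (∀ r : Fin n, L (π r) d = L r c) ∧ π.IsCycle ∧ π.support.card = n) →
      ∀ c : Fin n, Adm n (Nat.card
        {t : Equiv.Perm (Fin n) × Equiv.Perm (Fin n) × Equiv.Perm (Fin n) //
          t ∈ Atp L ∧ t.2.1 c = c})) ∧
    ((∀ s t : Fin n, s ≠ t → ∃ π : Equiv.Perm (Fin n),
        (∀ r : Fin n, L (π r) ((L r).symm s) = t) ∧ π.IsCycle ∧ π.support.card = n) →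
      ∀ s : Fin n, Adm n (Nat.card
        {t : Equiv.Perm (Fin n) × Equiv.Perm (Fin n) × Equiv.Perm (Fin n) //
          t ∈ Atp L ∧ t.2.2 s = s})) := by
  obtain ⟨h1, h2, h3⟩ := row_main hn L hrow hcyc
  exact ⟨h1, h2, h3, fun hc => col_main hn L hlat hc hcyc, fun hs => sym_main hn L hlat hs hcyc⟩

end Pool.Agent.Results.MP_a7cd38_co.AutotopismGap
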