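import Pool.Agent.H.MP_a7cd38_co.RG.Fn

/-!
# The groups generated by the comparing permutations of row-Hamiltonian and atomic latin squares
-/

namespace Pool.Agent.Results.MP_a7cd38_co.RowGroups

open Pool.MP_a7cd38_co.AT Pool.MP_a7cd38_co.RG

/-- Let `L` be a latin square of order `n ≥ 2` (the entry in row `r` and column `c` is `L r c`)
that is not isotopic to the addition table of the integers modulo a prime `n`.  If `L` is
row-Hamiltonian, then the group generated by the permutations of the columns comparing two rows is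
not solvable, and it is doubly transitive on the columns if `n` is composite.  The same for the
group of the columns (of the symbols) if `L` is column-Hamiltonian (symbol-Hamiltonian). -/
theorem result (n : ℕ) (hn : 2 ≤ n) (L : Fin n → Equiv.Perm (Fin n))
    (hlat : ∀ c : Fin n, Function.Injective (fun r : Fin n => L r c))
    (hcyc : ¬ IsCyc L) :
    ((∀ i j : Fin n, i ≠ j →
        ((L j)⁻¹ * L i).IsCycle ∧ ((L j)⁻¹ * L i).support.card = n) →
      ¬ Group.IsSolvable (RowGrp L) ∧ (¬ n.Prime → Dbl (RowGrp L))) ∧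
    ((∀ c d : Fin n, c ≠ d → ∃ π : Equiv.Perm (Fin n),
        (∀ r : Fin n, L (π r) d = L r c) ∧ π.IsCycle ∧ π.support.card = n) →
      ¬ Group.IsSolvable (ColGrp L) ∧ (¬ n.Prime → Dbl (ColGrp L))) ∧
    ((∀ s t : Fin n, s ≠ t → ∃ π : Equiv.Perm (Fin n),
        (∀ r : Fin n, L (π r) ((L r).symm s) = t) ∧ π.IsCycle ∧ π.support.card = n) →
      ¬ Group.IsSolvable (SymGrp L) ∧ (¬ n.Prime → Dbl (SymGrp L))) := by
  refine ⟨fun h => ?_, fun h => ?_, fun h => ?_⟩
  · obtain ⟨h1, h2⟩ := row_thm hn L hlat h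
    exact ⟨fun hs => hcyc (h2 hs), h1⟩
  · obtain ⟨h1, h2⟩ := col_thm hn L hlat h
    exact ⟨fun hs => hcyc (h2 hs), h1⟩
  · obtain ⟨h1, h2⟩ := sym_thm hn L hlat h
    exact ⟨fun hs => hcyc (h2 hs), h1⟩

end Pool.Agent.Results.MP_a7cd38_co.RowGroups
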